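import Pool.Agent.H51.SzlenkNorm

/-!
The set of (codes of) infinite-dimensional separable Banach spaces with summable Szlenk index is not
of finite Borel class.
-/

set_option autoImplicit false
open Filter Topology
open Pool.Agent.H51.Szlenk

namespace Pool.Agent.Results.MP_a496e9_an.NotFiniteBorelClass

/-- add all sets with at most one element to a family -/
def fam (F : Set (Finset ℕ)) : Set (Finset ℕ) := {s | s ∈ F ∨ s.card ≤ 1}

lemma adm_fam {F : Set (Finset ℕ)} (hF : Hered F) : Adm (fam F) := by
  refine ⟨?_, Or.inr (by simp), fun n => Or.inr (by simp)⟩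
  rintro s (hs | hs) t ht
  · exact Or.inl (hF s hs t ht)
  · exact Or.inr ((Finset.card_le_card ht).trans hs)

lemma big_fam {F : Set (Finset ℕ)} : ∀ (k : ℕ) (t : Finset ℕ), Big k t F → Big k t (fam F)
  | 0, _, h => Or.inl h
  | k + 1, _, h => by
    have h' : ∃ᶠ n in atTop, Big k (insert n _) F := h
    exact h'.mono fun n hn => big_fam k _ hn

lemma big_of_fam {F : Set (Finset ℕ)} : ∀ (k : ℕ) (t : Finset ℕ), 2 ≤ t.card →
    Big k t (fam F) → Big k t F
  | 0, t, ht, h => by
    rcases h with h | h
    · exact h
    · omega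
  | k + 1, t, ht, h => by
    have h' : ∃ᶠ n in atTop, Big k (insert n t) (fam F) := h
    exact h'.mono fun n hn => big_of_fam k _
      (ht.trans (Finset.card_le_card (Finset.subset_insert n t))) hn

lemma not_big_fam {F : Set (Finset ℕ)} (hF : Hered F) {C : ℕ} (h : ¬ Big C ∅ F) :
    ¬ Big (C + 2) ∅ (fam F) := by
  intro hb
  have hb' : ∃ᶠ n in atTop, Big (C + 1) (insert n ∅) (fam F) := hb
  obtain ⟨n, hn⟩ := hb'.exists
  have hn' : ∃ᶠ m in atTop, Big C (insert m (insert n ∅)) (fam F) := hn
  obtain ⟨m, hm, hmn⟩ := (hn'.and_eventually (eventually_gt_atTop n)).exists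
  have hcard : (insert m (insert n ∅) : Finset ℕ).card = 2 := by
    rw [Finset.card_insert_of_notMem, Finset.card_insert_of_notMem]
    · simp
    · simp
    · simp; omega
  exact h ((big_of_fam C _ hcard.ge hm).mono hF (Finset.empty_subset _))

/-- the code of the space attached to an admissible family -/
noncomputable def code {H : Set (Finset ℕ)} (hH : Adm H) : PP :=
  ⟨fun v => semi hH (toReal v), by
    refine ⟨fun v => apply_nonneg _ _, fun v w => ?_, fun q v => ?_⟩
    · rw [toReal_add]; exact map_add_le_add _ _ _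
    · rw [toReal_smul, map_smul_eq_mul]; rfl⟩

lemma extension_code {H : Set (Finset ℕ)} (hH : Adm H) : extension (code hH) = semi hH :=
  extension_unique (μ := (code hH).1) _ _ (extension_spec _) (fun _ => rfl)

lemma infinite_dim {H : Set (Finset ℕ)} (hH : Adm H) :
    ¬ FiniteDimensional ℝ (XX (semi hH)) := by
  intro hfin
  have hinj : Function.Injective (emb (semi hH)).toLinearMap := by
    rw [← LinearMap.ker_eq_bot, LinearMap.ker_eq_bot']
    intro x hx
    have h1 : ‖emb (semi hH) x‖ = 0 := by
      have : emb (semi hH) x = 0 := hx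
      rw [this, norm_zero]
    rw [norm_emb, semi_apply] at h1
    have : (x : c00) = 0 := Finsupp.ext fun n => by
      have h2 := abs_le_nrm hH x n
      rw [h1] at h2
      exact abs_nonpos_iff.mp h2
    exact this
  have h2 : FiniteDimensional ℝ (C00 (semi hH)) :=
    FiniteDimensional.of_injective (emb (semi hH)).toLinearMap hinj
  have h3 : FiniteDimensional ℝ c00 := h2
  have h4 : Finite ℕ := by
    have b : Module.Basis ℕ ℝ c00 := Finsupp.basisSingleOne
    exact Module.Finite.finite_basis b
  exact not_finite ℕ

/-- the point of `𝒫_∞` attached to an admissible family -/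
noncomputable def pt {H : Set (Finset ℕ)} (hH : Adm H) : PInf :=
  ⟨code hH, by
    have key : ∀ p : Seminorm ℝ c00, p = semi hH → ¬ FiniteDimensional ℝ (XX p) := by
      rintro _ rfl
      exact infinite_dim hH
    exact key _ (extension_code hH)⟩

lemma mem_SS_iff {H : Set (Finset ℕ)} (hH : Adm H) :
    pt hH ∈ SS ↔ SummableSzlenk (XX (semi hH)) := by
  have key : ∀ p : Seminorm ℝ c00, p = semi hH →
      (SummableSzlenk (XX p) ↔ SummableSzlenk (XX (semi hH))) := by
    rintro _ rfl
    exact Iff.rfl
  exact key _ (extension_code hH)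

lemma continuous_pt {F : Cantor → Set (Finset ℕ)} (hF : ∀ x, Hered (F x))
    (hc : ∀ s, IsClopen {x | s ∈ F x}) : Continuous fun x => pt (adm_fam (hF x)) := by
  apply Continuous.subtype_mk
  apply Continuous.subtype_mk
  apply continuous_pi
  intro v
  apply IsLocallyConstant.continuous
  rw [IsLocallyConstant.iff_exists_open]
  intro x
  -- the norm of `v` depends only on the subsets of the support of `v`
  set S := (toReal v).support.powerset with hS
  refine ⟨⋂ s ∈ S, {y | s ∈ F y ↔ s ∈ F x}, ?_, ?_, ?_⟩
  · apply isOpen_biInter_finset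
    intro s _
    by_cases hs : s ∈ F x
    · have : {y | s ∈ F y ↔ s ∈ F x} = {y | s ∈ F y} := by ext y; simp [hs]
      rw [this]; exact (hc s).isOpen
    · have : {y | s ∈ F y ↔ s ∈ F x} = {y | s ∈ F y}ᶜ := by ext y; simp [hs]
      rw [this]; exact (hc s).compl.isOpen
  · simp
  · intro y hy
    have hy' : ∀ s ⊆ (toReal v).support, (s ∈ F y ↔ s ∈ F x) := by
      intro s hs
      have := Set.mem_iInter₂.mp hy s (by rw [hS, Finset.mem_powerset]; exact hs)
      exact this
    have key : ∀ y z : Cantor, (∀ s ⊆ (toReal v).support, s ∈ F y → s ∈ F z) →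
        nrm (fam (F y)) (toReal v) ≤ nrm (fam (F z)) (toReal v) := by
      classical
      intro y z h
      apply nrm_le (adm_fam (hF y))
      intro s hs
      have h1 : ∑ i ∈ s, |toReal v i| = ∑ i ∈ s ∩ (toReal v).support, |toReal v i| := by
        symm
        apply Finset.sum_subset Finset.inter_subset_left
        intro i hi hi2
        rw [Finset.mem_inter, not_and] at hi2
        have := hi2 hi
        rw [Finsupp.notMem_support_iff] at this
        rw [this, abs_zero]
      rw [h1]
      apply le_nrm
      rcases (adm_fam (hF y)).hered s hs (s ∩ (toReal v).support) Finset.inter_subset_left with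
        h2 | h2
      · exact Or.inl (h _ Finset.inter_subset_right h2)
      · exact Or.inr h2
    exact le_antisymm (key y x fun s hs h => (hy' s hs).mp h)
      (key x y fun s hs h => (hy' s hs).mpr h)

/-- The set `𝒮` of codes `μ ∈ 𝒫_∞` of spaces with summable Szlenk index is not a `Σ⁰_{n+1}` set,
for any natural number `n`; that is, `𝒮` is not of finite Borel class. -/
theorem result : ∀ n : ℕ, ¬ IsSigma n SS := by
  intro n hn
  obtain ⟨A, hA, hA'⟩ := exists_not_isSigma n
  obtain ⟨C, hC⟩ := enc_of_isSigma n
  obtain ⟨F, h1, -, h3, h4, h5⟩ := (hC A hA).1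
  apply hA'
  have hpre := hn.preimage (continuous_pt h1 h3)
  have : (fun x => pt (adm_fam (h1 x))) ⁻¹' SS = Aᶜ := by
    ext x
    rw [Set.mem_preimage, mem_SS_iff, Set.mem_compl_iff]
    constructor
    · intro hs hx
      exact not_summable_of_big _ (fun k => big_fam k ∅ (h4 x hx k)) hs
    · intro hx
      exact summable_of_not_big (adm_fam (h1 x)) (C := C + 1) (not_big_fam (h1 x) (h5 x hx))
  rwa [this] at hpre

end Pool.Agent.Results.MP_a496e9_an.NotFiniteBorelClass
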